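import Mathlib

/-!
MP_3b4475_gt: the topologization of Kuratowski-Painlevé convergence on the closed subsets of the
space of mm-spaces with the box distance is not Hausdorff, hence not metrizable.

Idea. For `k ≥ 3` let `C k n` be the set of the classes with an atom `a` of mass at least `1 - 1/k`
such that the points at distance at least `n` from `a` have mass at least `1/k`. These sets are
closed, nonempty and decrease to the empty set as `n → ∞`, so `C k n` converges to the empty set as
`n → ∞`. For any choice of `n k`, the sets `C k (n k)` converge, as `k → ∞`, to the set `A0` of the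
classes with an atom of full mass (that is, to the class of the one-point space). So each
neighbourhood of the empty set meets each neighbourhood of `A0`.
-/

namespace Pool.Agent.Results.MP_3b4475_gt.NotHausdorff

open MeasureTheory Topology Filter TopologicalSpace Set

/-- An mm-space: a complete separable metric space with a Borel probability measure. -/
structure MMSpace where
  /-- the underlying set -/
  carrier : Type
  /-- the metric -/
  [metric : MetricSpace carrier]
  [complete : CompleteSpace carrier]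
  [separable : SeparableSpace carrier]
  [sigmaAlg : MeasurableSpace carrier]
  [borel : BorelSpace carrier]
  /-- the measure -/
  mu : Measure carrier
  [prob : IsProbabilityMeasure mu]

attribute [instance] MMSpace.metric MMSpace.complete MMSpace.separable MMSpace.sigmaAlg
  MMSpace.borel MMSpace.prob

/-- Two mm-spaces are identified when some (surjective) isometry between the supports of their
measures pushes one measure forward to the other. -/
def MMIso (X Y : MMSpace) : Prop :=
  ∃ f : X.mu.support ≃ᵢ Y.mu.support,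
    (X.mu.comap ((↑) : X.mu.support → X.carrier)).map (fun x => (f x : Y.carrier)) = Y.mu

/-- The interval `[0,1)`. -/
abbrev UI : Type := Ico (0 : ℝ) 1

/-- Lebesgue measure on `[0,1)`. -/
noncomputable def leb : Measure UI := (volume : Measure ℝ).comap ((↑) : UI → ℝ)

/-- `φ` is a parameter of `X`: a Borel map `[0,1) → X` that pushes Lebesgue measure forward to the
measure of `X`. -/
def IsParam (X : MMSpace) (φ : UI → X.carrier) : Prop :=
  Measurable φ ∧ leb.map φ = X.mu

/-- `ε` occurs in the infimum that defines the box distance of `X` and `Y`. -/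
def BoxAdm (X Y : MMSpace) (ε : ℝ) : Prop :=
  0 ≤ ε ∧ ∃ (φ : UI → X.carrier) (ψ : UI → Y.carrier) (I₀ : Set UI),
    IsParam X φ ∧ IsParam Y ψ ∧ MeasurableSet I₀ ∧ ENNReal.ofReal (1 - ε) ≤ leb I₀ ∧
      ∀ s ∈ I₀, ∀ t ∈ I₀, |dist (φ s) (φ t) - dist (ψ s) (ψ t)| ≤ ε

/-- The box distance of two mm-spaces. -/
noncomputable def box (X Y : MMSpace) : ℝ := sInf {ε : ℝ | BoxAdm X Y ε}

lemma measSupp (X : MMSpace) : MeasurableSet X.mu.support :=
  Measure.isClosed_support.measurableSet

instance (X : MMSpace) : SecondCountableTopology X.carrier :=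
  UniformSpace.secondCountable_of_separable _

lemma map_comap_coe (X : MMSpace) :
    (X.mu.comap ((↑) : X.mu.support → X.carrier)).map ((↑) : X.mu.support → X.carrier) = X.mu := by
  rw [map_comap_subtype_coe (measSupp X)]
  exact Measure.restrict_eq_self_of_ae_mem Measure.support_mem_ae

instance (X : MMSpace) : IsProbabilityMeasure (X.mu.comap ((↑) : X.mu.support → X.carrier)) := by
  constructor
  have h := congrArg (fun ν => ν univ) (map_comap_coe X)
  simp only [measure_univ] at h
  rw [Measure.map_apply measurable_subtype_coe MeasurableSet.univ] at h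
  simpa using h

lemma MMIso.refl (X : MMSpace) : MMIso X X :=
  ⟨IsometryEquiv.refl _, map_comap_coe X⟩

lemma comap_of_map {X Y : MMSpace} (f : X.mu.support ≃ᵢ Y.mu.support)
    (h : (X.mu.comap ((↑) : X.mu.support → X.carrier)).map (fun x => (f x : Y.carrier)) = Y.mu) :
    Y.mu.comap ((↑) : Y.mu.support → Y.carrier) =
      (X.mu.comap ((↑) : X.mu.support → X.carrier)).map f := by
  have hf : Measurable f := f.continuous.measurable
  have e : (fun x => (f x : Y.carrier)) = ((↑) : Y.mu.support → Y.carrier) ∘ f := rfl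
  rw [e, ← Measure.map_map measurable_subtype_coe hf] at h
  have hm : MeasurableEmbedding ((↑) : Y.mu.support → Y.carrier) :=
    MeasurableEmbedding.subtype_coe (measSupp Y)
  have h2 := hm.comap_map ((X.mu.comap ((↑) : X.mu.support → X.carrier)).map f)
  rw [← h2]
  exact congrArg (fun ν : Measure Y.carrier => ν.comap ((↑) : Y.mu.support → Y.carrier)) h.symm

lemma MMIso.symm {X Y : MMSpace} (h : MMIso X Y) : MMIso Y X := by
  obtain ⟨f, hf⟩ := h
  refine ⟨f.symm, ?_⟩
  rw [comap_of_map f hf, Measure.map_map (by fun_prop) f.continuous.measurable]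
  have e : (fun x => ((f.symm x : X.mu.support) : X.carrier)) ∘ f =
      ((↑) : X.mu.support → X.carrier) := by
    funext x; simp
  rw [e]
  exact map_comap_coe X

lemma MMIso.trans {X Y Z : MMSpace} (h : MMIso X Y) (h' : MMIso Y Z) : MMIso X Z := by
  obtain ⟨f, hf⟩ := h
  obtain ⟨g, hg⟩ := h'
  refine ⟨f.trans g, ?_⟩
  rw [comap_of_map f hf, Measure.map_map (by fun_prop) f.continuous.measurable] at hg
  exact hg

/-- The identification of mm-spaces. -/
instance mmSetoid : Setoid MMSpace where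
  r := MMIso
  iseqv := ⟨MMIso.refl, MMIso.symm, MMIso.trans⟩

/-- The set of classes of mm-spaces. -/
def MMClass : Type 1 := Quotient mmSetoid

/-- The class of an mm-space. -/
def cls (X : MMSpace) : MMClass := Quotient.mk mmSetoid X

/-- Transport of parameters. -/
lemma param_transport {X Y : MMSpace} (h : MMIso X Y) {φ : UI → X.carrier} (hφ : IsParam X φ) :
    ∃ φ' : UI → Y.carrier, IsParam Y φ' ∧
      ∀ s t, φ s ∈ X.mu.support → φ t ∈ X.mu.support → dist (φ' s) (φ' t) = dist (φ s) (φ t) := by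
  obtain ⟨f, hf⟩ := h
  obtain ⟨y₀, -⟩ : Y.mu.support.Nonempty := Measure.nonempty_support (IsProbabilityMeasure.ne_zero _)
  have hm : MeasurableEmbedding ((↑) : X.mu.support → X.carrier) :=
    MeasurableEmbedding.subtype_coe (measSupp X)
  let g : X.carrier → Y.carrier :=
    Function.extend ((↑) : X.mu.support → X.carrier) (fun x => (f x : Y.carrier)) (fun _ => y₀)
  have hg : Measurable g := hm.measurable_extend (by fun_prop) measurable_const
  have hgc : ∀ x : X.mu.support, g x = f x := fun x =>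
    Function.Injective.extend_apply Subtype.val_injective _ _ x
  have hgc' : g ∘ ((↑) : X.mu.support → X.carrier) = fun x => (f x : Y.carrier) := by
    funext x; exact hgc x
  refine ⟨g ∘ φ, ⟨hg.comp hφ.1, ?_⟩, ?_⟩
  · rw [← Measure.map_map hg hφ.1, hφ.2]
    conv_lhs => rw [← map_comap_coe X]
    rw [Measure.map_map hg measurable_subtype_coe, hgc', hf]
  · intro s t hs ht
    have h1 := hgc ⟨φ s, hs⟩
    have h2 := hgc ⟨φ t, ht⟩
    simp only [Function.comp_apply]
    simp only at h1 h2
    rw [h1, h2]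
    have := f.isometry.dist_eq ⟨φ s, hs⟩ ⟨φ t, ht⟩
    simpa [Subtype.dist_eq] using this

lemma param_ae_supp {X : MMSpace} {φ : UI → X.carrier} (hφ : IsParam X φ) :
    leb (φ ⁻¹' X.mu.support)ᶜ = 0 := by
  have h : X.mu X.mu.supportᶜ = 0 := Measure.measure_compl_support
  have h2 : leb.map φ X.mu.supportᶜ = 0 := by
    rw [hφ.2]; exact h
  rw [Measure.map_apply hφ.1 (measSupp X).compl] at h2
  exact h2

lemma BoxAdm.congr {X Y X' Y' : MMSpace} (hX : MMIso X X') (hY : MMIso Y Y') {ε : ℝ}
    (h : BoxAdm X Y ε) : BoxAdm X' Y' ε := by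
  obtain ⟨h0, φ, ψ, I₀, hφ, hψ, hI, hv, hd⟩ := h
  obtain ⟨φ', hφ', hφd⟩ := param_transport hX hφ
  obtain ⟨ψ', hψ', hψd⟩ := param_transport hY hψ
  refine ⟨h0, φ', ψ', I₀ ∩ (φ ⁻¹' X.mu.support ∩ ψ ⁻¹' Y.mu.support), hφ', hψ',
    hI.inter ((hφ.1 (measSupp X)).inter (hψ.1 (measSupp Y))), ?_, ?_⟩
  · have : leb (φ ⁻¹' X.mu.support ∩ ψ ⁻¹' Y.mu.support)ᶜ = 0 := by
      rw [compl_inter]
      exact measure_union_null (param_ae_supp hφ) (param_ae_supp hψ)
    rw [measure_inter_conull this]
    exact hv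
  · rintro s ⟨hs, hs1, hs2⟩ t ⟨ht, ht1, ht2⟩
    rw [hφd s t hs1 ht1, hψd s t hs2 ht2]
    exact hd s hs t ht

lemma box_congr {X Y X' Y' : MMSpace} (hX : MMIso X X') (hY : MMIso Y Y') :
    box X Y = box X' Y' := by
  have : {ε : ℝ | BoxAdm X Y ε} = {ε : ℝ | BoxAdm X' Y' ε} := by
    ext ε
    exact ⟨fun h => h.congr hX hY, fun h => BoxAdm.congr hX.symm hY.symm h⟩
  rw [box, box, this]

/-- The box distance on classes. -/
noncomputable def boxDist : MMClass → MMClass → ℝ :=
  Quotient.lift₂ box (fun _ _ _ _ hX hY => box_congr hX hY)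


instance : IsProbabilityMeasure leb := by
  constructor
  rw [leb, comap_subtype_coe_apply measurableSet_Ico, image_univ, Subtype.range_coe,
    Real.volume_Ico]
  simp

/-- Every mm-space has a parameter. -/
lemma exists_param (X : MMSpace) : ∃ φ, IsParam X φ := by
  have : Nonempty X.carrier := nonempty_of_isProbabilityMeasure X.mu
  obtain ⟨f, hf, hfm⟩ := Measure.exists_measurable_map_eq X.mu
  let j : UI → unitInterval := fun s => ⟨s.1, s.2.1, s.2.2.le⟩
  have hj : Measurable j := by
    apply Measurable.subtype_mk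
    exact measurable_subtype_coe
  refine ⟨f ∘ j, hf.comp hj, ?_⟩
  rw [← Measure.map_map hf hj]
  have : leb.map j = (volume : Measure unitInterval) := by
    ext B hB
    rw [Measure.map_apply hj hB, leb, comap_subtype_coe_apply measurableSet_Ico]
    rw [unitInterval.volume_apply]
    apply le_antisymm
    · apply measure_mono
      rintro _ ⟨s, hs, rfl⟩
      exact ⟨j s, hs, rfl⟩
    · have h1 : ((↑) : unitInterval → ℝ) '' B ⊆ (((↑) : UI → ℝ) '' (j ⁻¹' B)) ∪ {1} := by
        rintro _ ⟨s, hs, rfl⟩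
        by_cases h : (s : ℝ) = 1
        · right; exact h
        · left
          refine ⟨⟨s.1, s.2.1, lt_of_le_of_ne s.2.2 h⟩, ?_, rfl⟩
          exact hs
      refine (measure_mono h1).trans ((measure_union_le _ _).trans ?_)
      simp
  rw [this, hfm]

lemma boxAdm_one (X Y : MMSpace) : BoxAdm X Y 1 := by
  obtain ⟨φ, hφ⟩ := exists_param X
  obtain ⟨ψ, hψ⟩ := exists_param Y
  exact ⟨zero_le_one, φ, ψ, ∅, hφ, hψ, MeasurableSet.empty, by simp, by simp⟩

lemma box_lt {X Y : MMSpace} {ε : ℝ} (h : box X Y < ε) : ∃ ε' < ε, BoxAdm X Y ε' := by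
  obtain ⟨a, ha, ha'⟩ := exists_lt_of_csInf_lt ⟨1, boxAdm_one X Y⟩ h
  exact ⟨a, ha', ha⟩

lemma box_le {X Y : MMSpace} {ε : ℝ} (h : BoxAdm X Y ε) : box X Y ≤ ε :=
  csInf_le ⟨0, fun _ h => h.1⟩ h

lemma box_self (X : MMSpace) : box X X ≤ 0 := by
  obtain ⟨φ, hφ⟩ := exists_param X
  apply box_le
  exact ⟨le_rfl, φ, φ, univ, hφ, hφ, MeasurableSet.univ, by simp, by simp⟩

/-- The topology of the box distance: a set is open when it contains a ball around each of its
points. -/
instance boxTopology : TopologicalSpace MMClass where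
  IsOpen U := ∀ x ∈ U, ∃ ε > 0, ∀ y, boxDist x y < ε → y ∈ U
  isOpen_univ := fun _ _ => ⟨1, one_pos, fun _ _ => mem_univ _⟩
  isOpen_inter := by
    rintro U V hU hV x ⟨hxU, hxV⟩
    obtain ⟨ε, hε, h⟩ := hU x hxU
    obtain ⟨δ, hδ, h'⟩ := hV x hxV
    exact ⟨min ε δ, lt_min hε hδ, fun y hy =>
      ⟨h y (hy.trans_le (min_le_left _ _)), h' y (hy.trans_le (min_le_right _ _))⟩⟩
  isOpen_sUnion := by
    rintro S hS x ⟨U, hU, hx⟩
    obtain ⟨ε, hε, h⟩ := hS U hU x hx
    exact ⟨ε, hε, fun y hy => ⟨U, hU, h y hy⟩⟩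

section Hyperspace

variable {Y : Type*} [TopologicalSpace Y]

/-- The lower limit of a net of sets: the points each neighbourhood of which meets `A i` for all
sufficiently large `i`. -/
def Li {ι : Type*} [Preorder ι] (A : ι → Set Y) : Set Y :=
  {x | ∀ U ∈ 𝓝 x, ∃ i₀, ∀ i ≥ i₀, (A i ∩ U).Nonempty}

/-- The upper limit of a net of sets: the points each neighbourhood of which meets `A i` for
cofinally many `i`. -/
def Ls {ι : Type*} [Preorder ι] (A : ι → Set Y) : Set Y :=
  {x | ∀ U ∈ 𝓝 x, ∀ i₀, ∃ i ≥ i₀, (A i ∩ U).Nonempty}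

/-- The net `A` of closed sets Kuratowski–Painlevé converges to the closed set `B`. -/
def KPConv {ι : Type*} [Preorder ι] (A : ι → Closeds Y) (B : Closeds Y) : Prop :=
  Ls (fun i => (A i : Set Y)) ⊆ B ∧ (B : Set Y) ⊆ Li (fun i => (A i : Set Y))

end Hyperspace

/-- Every Kuratowski–Painlevé convergent net of closed sets converges in the topology `t` to its
Kuratowski–Painlevé limit. -/
def KPCompat.{u, v} (Y : Type u) [TopologicalSpace Y] (t : TopologicalSpace (Closeds Y)) : Prop :=
  ∀ (ι : Type v) [Preorder ι] [IsDirectedOrder ι] [Nonempty ι] (A : ι → Closeds Y) (B : Closeds Y),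
    KPConv A B → Tendsto A atTop (@nhds _ t B)

/-- The topologization of Kuratowski–Painlevé convergence: the finest topology on the closed sets
in which every convergent net converges to its Kuratowski–Painlevé limit. -/
@[instance_reducible] def tauK.{u, v} (Y : Type u) [TopologicalSpace Y] : TopologicalSpace (Closeds Y) :=
  sInf {t | KPCompat.{u, v} Y t}

/-- `tauK` is itself one of the topologies in question, hence indeed the finest one. -/
theorem tauK_isLeast.{u, v} (Y : Type u) [TopologicalSpace Y] :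
    IsLeast {t | KPCompat.{u, v} Y t} (tauK.{u, v} Y) := by
  constructor
  · intro ι _ _ _ A B h
    rw [tauK, nhds_sInf, tendsto_iInf]
    intro t
    rw [tendsto_iInf]
    intro ht
    exact ht ι A B h
  · exact fun t ht => sInf_le ht


section Limits

lemma real_limit {α : Type*} [MeasurableSpace α] (μ : Measure α) [IsFiniteMeasure μ] {f : α → ℝ}
    (hf : Measurable f) {c m : ℝ} (h : ∀ δ > 0, m - δ ≤ μ.real {x | f x ≤ c + δ}) :
    m ≤ μ.real {x | f x ≤ c} := by
  let e : ℕ → ℝ := fun j => 1 / ((j : ℝ) + 1)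
  have he : Tendsto e atTop (𝓝 0) := tendsto_one_div_add_atTop_nhds_zero_nat
  have hepos : ∀ j, 0 < e j := fun j => by positivity
  have heanti : Antitone e := fun i j hij => by
    simp only [e]
    gcongr
  have hm : ∀ j, MeasurableSet {x | f x ≤ c + e j} := fun j => hf measurableSet_Iic
  have h1 : Tendsto (fun j => μ {x | f x ≤ c + e j}) atTop (𝓝 (μ (⋂ j, {x | f x ≤ c + e j}))) := by
    apply tendsto_measure_iInter_atTop (fun j => (hm j).nullMeasurableSet)
    · intro i j hij x hx
      have := heanti hij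
      simp only [mem_ofPred_eq] at hx ⊢
      linarith
    · exact ⟨0, measure_ne_top _ _⟩
  have h2 : (⋂ j, {x | f x ≤ c + e j}) = {x | f x ≤ c} := by
    ext x
    simp only [mem_iInter, mem_ofPred_eq]
    constructor
    · intro hx
      have : Tendsto (fun j => c + e j) atTop (𝓝 (c + 0)) := he.const_add c
      rw [add_zero] at this
      exact ge_of_tendsto' this hx
    · intro hx j
      linarith [hepos j]
  rw [h2] at h1
  have h3 : Tendsto (fun j => μ.real {x | f x ≤ c + e j}) atTop (𝓝 (μ.real {x | f x ≤ c})) :=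
    (ENNReal.tendsto_toReal (measure_ne_top _ _)).comp h1
  have h4 : Tendsto (fun j => m - e j) atTop (𝓝 (m - 0)) := he.const_sub m
  rw [sub_zero] at h4
  exact le_of_tendsto_of_tendsto' h4 h3 (fun j => h (e j) (hepos j))

lemma real_inter_ge {α : Type*} [MeasurableSpace α] (μ : Measure α) [IsProbabilityMeasure μ]
    {S T : Set α} (hT : MeasurableSet T) : μ.real S + μ.real T - 1 ≤ μ.real (S ∩ T) := by
  have h := measureReal_union_add_inter (μ := μ) (s := S) hT
  have h2 : μ.real (S ∪ T) ≤ 1 := measureReal_le_one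
  linarith

lemma inter_nonempty {α : Type*} [MeasurableSpace α] (μ : Measure α) [IsProbabilityMeasure μ]
    {S T : Set α} (hT : MeasurableSet T) (h : 1 < μ.real S + μ.real T) : (S ∩ T).Nonempty := by
  have h1 := real_inter_ge μ (S := S) hT
  by_contra h2
  rw [not_nonempty_iff_eq_empty] at h2
  rw [h2, measureReal_empty] at h1
  linarith

end Limits

/-- `X` has an atom `a` of mass at least `1 - r` such that the set of points at distance at least
`n` from `a` has mass at least `ρ`. -/
def PP (r ρ n : ℝ) (X : MMSpace) : Prop :=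
  ∃ a : X.carrier, 1 - r ≤ X.mu.real {a} ∧ ρ ≤ X.mu.real {b | n ≤ dist a b}

lemma param_real {X : MMSpace} {φ : UI → X.carrier} (hφ : IsParam X φ) {B : Set X.carrier}
    (hB : MeasurableSet B) : X.mu.real B = leb.real (φ ⁻¹' B) := by
  rw [← hφ.2, measureReal_def, measureReal_def, Measure.map_apply hφ.1 hB]

lemma near_of_adm {r ρ n ε : ℝ} {X Y : MMSpace} (hY : PP r ρ n Y) (h : BoxAdm X Y ε)
    (hε : ε < 1 - r) :
    ∃ p : X.carrier, 1 - r - ε ≤ X.mu.real {b | dist p b ≤ ε} ∧
      ρ - ε ≤ X.mu.real {b | n - ε ≤ dist p b} := by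
  obtain ⟨h0, φ, ψ, I₀, hφ, hψ, hI, hv, hd⟩ := h
  obtain ⟨a, ha1, ha2⟩ := hY
  have hv' : 1 - ε ≤ leb.real I₀ := by
    rw [measureReal_def, ← ENNReal.ofReal_le_iff_le_toReal (measure_ne_top _ _)]
    exact hv
  have hm1 : MeasurableSet ({a} : Set Y.carrier) := measurableSet_singleton a
  have hm2 : MeasurableSet {b : Y.carrier | n ≤ dist a b} :=
    measurableSet_le measurable_const (by fun_prop)
  rw [param_real hψ hm1] at ha1
  rw [param_real hψ hm2] at ha2
  have h1 := real_inter_ge leb (S := I₀) (hψ.1 hm1)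
  have h2 := real_inter_ge leb (S := I₀) (hψ.1 hm2)
  obtain ⟨s₀, hs₀, hs₀'⟩ : (I₀ ∩ ψ ⁻¹' {a}).Nonempty := by
    apply inter_nonempty leb (hψ.1 hm1)
    linarith
  have hs₀a : ψ s₀ = a := hs₀'
  refine ⟨φ s₀, ?_, ?_⟩
  · rw [param_real hφ (measurableSet_le (by fun_prop) measurable_const)]
    have : I₀ ∩ ψ ⁻¹' {a} ⊆ φ ⁻¹' {b | dist (φ s₀) b ≤ ε} := by
      rintro t ⟨ht, hta⟩
      have hta' : ψ t = a := hta
      have := hd s₀ hs₀ t ht
      rw [hs₀a, hta', dist_self, sub_zero, abs_of_nonneg dist_nonneg] at this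
      exact this
    have h3 : leb.real (I₀ ∩ ψ ⁻¹' {a}) ≤ leb.real (φ ⁻¹' {b | dist (φ s₀) b ≤ ε}) :=
      measureReal_mono this
    linarith
  · rw [param_real hφ (measurableSet_le measurable_const (by fun_prop))]
    have : I₀ ∩ ψ ⁻¹' {b | n ≤ dist a b} ⊆ φ ⁻¹' {b | n - ε ≤ dist (φ s₀) b} := by
      rintro t ⟨ht, hta⟩
      have hta' : n ≤ dist a (ψ t) := hta
      have := hd s₀ hs₀ t ht
      rw [hs₀a] at this
      have h4 := (abs_le.1 this).1
      show n - ε ≤ dist (φ s₀) (φ t)
      linarith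
    have h3 : leb.real (I₀ ∩ ψ ⁻¹' {b | n ≤ dist a b}) ≤
        leb.real (φ ⁻¹' {b | n - ε ≤ dist (φ s₀) b}) := measureReal_mono this
    linarith

lemma near_mono {r ρ n ε ε' : ℝ} {X : MMSpace} (hε : ε' ≤ ε)
    (h : ∃ p : X.carrier, 1 - r - ε' ≤ X.mu.real {b | dist p b ≤ ε'} ∧
      ρ - ε' ≤ X.mu.real {b | n - ε' ≤ dist p b}) :
    ∃ p : X.carrier, 1 - r - ε ≤ X.mu.real {b | dist p b ≤ ε} ∧
      ρ - ε ≤ X.mu.real {b | n - ε ≤ dist p b} := by
  obtain ⟨p, h1, h2⟩ := h
  refine ⟨p, ?_, ?_⟩
  · have : X.mu.real {b | dist p b ≤ ε'} ≤ X.mu.real {b | dist p b ≤ ε} :=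
      measureReal_mono (fun b hb => le_trans hb hε)
    linarith
  · have : X.mu.real {b | n - ε' ≤ dist p b} ≤ X.mu.real {b | n - ε ≤ dist p b} := by
      refine measureReal_mono ?_
      intro b hb
      have hb' : n - ε' ≤ dist p b := hb
      show n - ε ≤ dist p b
      linarith
    linarith

/-- The property `PP` is preserved under limits in the box distance. -/
lemma PP_closed {r ρ n : ℝ} (hr : r < 1 / 2) (X : MMSpace)
    (h : ∀ ε > 0, ∃ Y, PP r ρ n Y ∧ box X Y < ε) : PP r ρ n X := by
  have key : ∀ ε > 0, ε < 1 / 2 - r →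
      ∃ p : X.carrier, 1 - r - ε ≤ X.mu.real {b | dist p b ≤ ε} ∧
        ρ - ε ≤ X.mu.real {b | n - ε ≤ dist p b} := by
    intro ε hε hε'
    obtain ⟨Y, hY, hb⟩ := h ε hε
    obtain ⟨ε₁, h1, h2⟩ := box_lt hb
    exact near_mono h1.le (near_of_adm hY h2 (by linarith))
  let e : ℕ → ℝ := fun j => (1 / 2 - r) * (1 / ((j : ℝ) + 2))
  have hη : 0 < 1 / 2 - r := by linarith
  have hepos : ∀ j, 0 < e j := fun j => by positivity
  have hlt : ∀ j, e j < 1 / 2 - r := by
    intro j
    have : 1 / ((j : ℝ) + 2) < 1 := by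
      rw [div_lt_one (by positivity)]
      have : (0 : ℝ) ≤ j := Nat.cast_nonneg j
      linarith
    calc e j < (1 / 2 - r) * 1 := mul_lt_mul_of_pos_left this hη
      _ = 1 / 2 - r := mul_one _
  have heanti : Antitone e := fun i j hij => by
    simp only [e]
    gcongr
  have he0 : Tendsto (fun j : ℕ => 1 / ((j : ℝ) + 2)) atTop (𝓝 0) := by
    have h1 : Tendsto (fun j : ℕ => ((j : ℝ) + 2)) atTop atTop :=
      tendsto_atTop_add_const_right _ _ tendsto_natCast_atTop_atTop
    have h2 := h1.inv_tendsto_atTop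
    refine h2.congr (fun j => ?_)
    rw [Pi.inv_apply, one_div]
  have he : Tendsto e atTop (𝓝 0) := by
    simpa [e] using he0.const_mul (1 / 2 - r)
  choose p hp1 hp2 using fun j => key (e j) (hepos j) (hlt j)
  have hdist : ∀ i j N, N ≤ i → N ≤ j → dist (p i) (p j) ≤ 2 * e N := by
    intro i j N hi hj
    obtain ⟨b, hb1, hb2⟩ : ({b | dist (p i) b ≤ e i} ∩ {b | dist (p j) b ≤ e j}).Nonempty := by
      apply inter_nonempty X.mu (measurableSet_le (by fun_prop) measurable_const)
      have := hp1 i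
      have := hp1 j
      have := hlt i
      have := hlt j
      linarith
    have h1 : dist (p i) b ≤ e i := hb1
    have h2 : dist (p j) b ≤ e j := hb2
    have h3 := dist_triangle_right (p i) (p j) b
    have h4 := heanti hi
    have h5 := heanti hj
    linarith
  have hc : CauchySeq p := by
    apply cauchySeq_of_le_tendsto_0 (fun N => 2 * e N)
    · intro i j N hi hj
      exact hdist i j N hi hj
    · simpa using he.const_mul 2
  obtain ⟨q, hq⟩ := cauchySeq_tendsto_of_complete hc
  have hpq : ∀ j, dist (p j) q ≤ 2 * e j := by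
    intro j
    have h1 : Tendsto (fun i => dist (p j) (p i)) atTop (𝓝 (dist (p j) q)) :=
      tendsto_const_nhds.dist hq
    apply le_of_tendsto h1
    filter_upwards [eventually_ge_atTop j] with i hi
    exact hdist j i j le_rfl hi
  have hsmall : ∀ δ > 0, ∃ j, 3 * e j ≤ δ := by
    intro δ hδ
    have : Tendsto (fun j => 3 * e j) atTop (𝓝 0) := by simpa using he.const_mul 3
    exact ((this.eventually_lt_const hδ).exists).imp (fun j hj => hj.le)
  refine ⟨q, ?_, ?_⟩
  · have h1 : ({q} : Set X.carrier) = {x | dist q x ≤ 0} := by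
      ext x
      simp only [mem_singleton_iff, mem_ofPred_eq]
      rw [dist_le_zero, eq_comm]
    rw [h1]
    apply real_limit X.mu (by fun_prop)
    intro δ hδ
    obtain ⟨j, hj⟩ := hsmall δ hδ
    have h2 : X.mu.real {b | dist (p j) b ≤ e j} ≤ X.mu.real {x | dist q x ≤ 0 + δ} := by
      refine measureReal_mono ?_
      intro b hb
      have hb' : dist (p j) b ≤ e j := hb
      have h3 := dist_triangle_left q b (p j)
      have h4 := hpq j
      show dist q b ≤ 0 + δ
      linarith
    have h5 := hp1 j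
    have h6 := hepos j
    linarith
  · have h1 : {b : X.carrier | n ≤ dist q b} = {x | -dist q x ≤ -n} := by
      ext x
      simp only [mem_ofPred_eq, neg_le_neg_iff]
    rw [h1]
    apply real_limit X.mu (by fun_prop)
    intro δ hδ
    obtain ⟨j, hj⟩ := hsmall δ hδ
    have h2 : X.mu.real {b | n - e j ≤ dist (p j) b} ≤ X.mu.real {x | -dist q x ≤ -n + δ} := by
      refine measureReal_mono ?_
      intro b hb
      have hb' : n - e j ≤ dist (p j) b := hb
      have h3 := dist_triangle (p j) q b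
      have h4 := hpq j
      show -dist q b ≤ -n + δ
      linarith
    have h5 := hp2 j
    have h6 := hepos j
    linarith

/-- The classes with property `PP`. -/
def Dset (r ρ n : ℝ) : Set MMClass := {x | ∃ X : MMSpace, cls X = x ∧ PP r ρ n X}

lemma boxDist_mk (X Y : MMSpace) : boxDist (cls X) (cls Y) = box X Y := rfl

lemma exists_cls (x : MMClass) : ∃ X, cls X = x := Quotient.exists_rep x

lemma mem_Dset {r ρ n : ℝ} (hr : r < 1 / 2) (X : MMSpace) :
    cls X ∈ Dset r ρ n ↔ PP r ρ n X := by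
  constructor
  · rintro ⟨Y, hY, h⟩
    apply PP_closed hr
    intro ε hε
    refine ⟨Y, h, ?_⟩
    rw [← boxDist_mk, ← hY, boxDist_mk]
    exact (box_self Y).trans_lt hε
  · exact fun h => ⟨X, rfl, h⟩

lemma isClosed_Dset {r ρ n : ℝ} (hr : r < 1 / 2) : IsClosed (Dset r ρ n) := by
  rw [← isOpen_compl_iff]
  intro x hx
  by_contra hcon
  push Not at hcon
  apply hx
  obtain ⟨X, rfl⟩ := exists_cls x
  refine ⟨X, rfl, PP_closed hr X ?_⟩
  intro ε hε
  obtain ⟨y, hy, hyD⟩ := hcon ε hε
  rw [notMem_compl_iff] at hyD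
  obtain ⟨Y, rfl, hY⟩ := hyD
  exact ⟨Y, hY, hy⟩

lemma Dset_anti {r ρ n m : ℝ} (hnm : n ≤ m) : Dset r ρ m ⊆ Dset r ρ n := by
  rintro _ ⟨X, rfl, a, h1, h2⟩
  refine ⟨X, rfl, a, h1, h2.trans ?_⟩
  refine measureReal_mono ?_
  intro b hb
  exact hnm.trans hb

lemma Dset_sub {r s ρ n : ℝ} (hrs : r ≤ s) : Dset r ρ n ⊆ Dset s 0 0 := by
  rintro _ ⟨X, rfl, a, h1, h2⟩
  exact ⟨X, rfl, a, by linarith, measureReal_nonneg⟩

/-- Tightness: for given `X`, `r < 1/2` and `ρ > 0`, property `PP r ρ n X` fails for some `n`. -/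
lemma exists_not_PP {r ρ : ℝ} (hr : r < 1 / 2) (hρ : 0 < ρ) (X : MMSpace) :
    ∃ n : ℕ, ¬ PP r ρ n X := by
  by_contra hcon
  push Not at hcon
  choose a ha1 ha2 using hcon
  have haa : ∀ n, a n = a 0 := by
    intro n
    obtain ⟨x, hx1, hx2⟩ : (({a n} : Set X.carrier) ∩ {a 0}).Nonempty := by
      apply inter_nonempty X.mu (measurableSet_singleton _)
      have := ha1 n
      have := ha1 0
      linarith
    exact hx1.symm.trans hx2
  have h1 : Tendsto (fun n : ℕ => X.mu {b | (n : ℝ) ≤ dist (a 0) b}) atTop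
      (𝓝 (X.mu (⋂ n : ℕ, {b | (n : ℝ) ≤ dist (a 0) b}))) := by
    apply tendsto_measure_iInter_atTop
    · exact fun n => (measurableSet_le measurable_const (by fun_prop)).nullMeasurableSet
    · intro i j hij x hx
      have : (i : ℝ) ≤ j := by exact_mod_cast hij
      exact this.trans hx
    · exact ⟨0, measure_ne_top _ _⟩
  have h2 : (⋂ n : ℕ, {b : X.carrier | (n : ℝ) ≤ dist (a 0) b}) = ∅ := by
    rw [eq_empty_iff_forall_notMem]
    intro b hb
    rw [mem_iInter] at hb
    obtain ⟨n, hn⟩ := exists_nat_gt (dist (a 0) b)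
    have : (n : ℝ) ≤ dist (a 0) b := hb n
    linarith
  rw [h2, measure_empty] at h1
  have h3 : Tendsto (fun n : ℕ => X.mu.real {b | (n : ℝ) ≤ dist (a 0) b}) atTop (𝓝 0) := by
    exact (ENNReal.tendsto_toReal ENNReal.zero_ne_top).comp h1
  have h4 : ρ ≤ 0 := by
    apply ge_of_tendsto' h3
    intro n
    have := ha2 n
    rw [haa n] at this
    exact this
  linarith


/-- The line with mass `1 - r` at `0` and mass `r` at `c`. -/
noncomputable abbrev twoPt (r c : ℝ) : MMSpace where
  carrier := ℝ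
  mu := leb.map (fun s : UI => if (s : ℝ) < 1 - r then (0 : ℝ) else c)
  prob := Measure.isProbabilityMeasure_map
    ((Measurable.ite (measurableSet_lt measurable_subtype_coe measurable_const) measurable_const
      measurable_const).aemeasurable)

lemma twoPt_param (r c : ℝ) :
    IsParam (twoPt r c) (fun s : UI => if (s : ℝ) < 1 - r then (0 : ℝ) else c) :=
  ⟨Measurable.ite (measurableSet_lt measurable_subtype_coe measurable_const) measurable_const
      measurable_const, rfl⟩

lemma meas_lt (r : ℝ) : MeasurableSet {s : UI | (s : ℝ) < 1 - r} :=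
  measurableSet_lt measurable_subtype_coe measurable_const

lemma leb_lt {r : ℝ} (h0 : 0 ≤ r) : leb {s : UI | (s : ℝ) < 1 - r} = ENNReal.ofReal (1 - r) := by
  rw [leb, comap_subtype_coe_apply measurableSet_Ico]
  have : ((↑) : UI → ℝ) '' {s : UI | (s : ℝ) < 1 - r} = Ico 0 (1 - r) := by
    ext x
    constructor
    · rintro ⟨s, hs, rfl⟩
      exact ⟨s.2.1, hs⟩
    · rintro ⟨h1, h2⟩
      exact ⟨⟨x, h1, by linarith⟩, h2, rfl⟩
  rw [this, Real.volume_Ico, sub_zero]

lemma lebreal_lt {r : ℝ} (h0 : 0 ≤ r) (h1 : r ≤ 1) : leb.real {s : UI | (s : ℝ) < 1 - r} = 1 - r := by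
  rw [measureReal_def, leb_lt h0, ENNReal.toReal_ofReal (by linarith)]

lemma twoPt_PP {r c : ℝ} (h0 : 0 ≤ r) (h1 : r ≤ 1) : PP r r c (twoPt r c) := by
  have hp := twoPt_param r c
  refine ⟨(0 : ℝ), ?_, ?_⟩
  · rw [param_real hp (measurableSet_singleton _)]
    refine (lebreal_lt h0 h1).ge.trans (measureReal_mono ?_)
    intro s hs
    have hs' : (s : ℝ) < 1 - r := hs
    show (if (s : ℝ) < 1 - r then (0 : ℝ) else c) = 0
    rw [if_pos hs']
  · rw [param_real hp (measurableSet_le measurable_const (by fun_prop))]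
    have h2 : leb.real {s : UI | (s : ℝ) < 1 - r}ᶜ = r := by
      rw [measureReal_compl (meas_lt r), lebreal_lt h0 h1, probReal_univ]
      ring
    refine h2.ge.trans (measureReal_mono ?_)
    intro s hs
    have hs' : ¬ (s : ℝ) < 1 - r := hs
    show c ≤ dist (0 : ℝ) (if (s : ℝ) < 1 - r then (0 : ℝ) else c)
    rw [if_neg hs', Real.dist_eq, zero_sub, abs_neg]
    exact le_abs_self c

/-- If `X` has an atom of full mass then it is close to `twoPt r c` for small `r`. -/
lemma box_twoPt {X : MMSpace} {a : X.carrier} (ha : X.mu.real {a} = 1) {r c : ℝ} (h0 : 0 ≤ r) :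
    box X (twoPt r c) ≤ r := by
  apply box_le
  have hX : X.mu = Measure.dirac a := by
    have h1 : X.mu {a} = 1 := by
      rw [measureReal_def] at ha
      have := ENNReal.ofReal_toReal (measure_ne_top X.mu {a})
      rw [ha, ENNReal.ofReal_one] at this
      exact this.symm
    have h2 : X.mu {a}ᶜ = 0 := by
      rw [prob_compl_eq_zero_iff (measurableSet_singleton a)]
      exact h1
    ext B hB
    rw [Measure.dirac_apply' _ hB]
    by_cases hb : a ∈ B
    · rw [indicator_of_mem hb]
      apply le_antisymm prob_le_one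
      rw [← h1]
      exact measure_mono (singleton_subset_iff.2 hb)
    · rw [indicator_of_notMem hb]
      refine measure_mono_null ?_ h2
      intro x hx hxa
      exact hb (hxa ▸ hx)
  refine ⟨h0, fun _ => a, _, {s : UI | (s : ℝ) < 1 - r}, ⟨measurable_const, ?_⟩, twoPt_param r c,
    meas_lt r, (leb_lt h0).ge, ?_⟩
  · rw [Measure.map_const, measure_univ, one_smul, hX]
  · intro s hs t ht
    have hs' : (s : ℝ) < 1 - r := hs
    have ht' : (t : ℝ) < 1 - r := ht
    show |dist a a - dist (if (s : ℝ) < 1 - r then (0 : ℝ) else c)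
      (if (t : ℝ) < 1 - r then (0 : ℝ) else c)| ≤ r
    rw [if_pos hs', if_pos ht', dist_self, dist_self, sub_zero, abs_zero]
    exact h0

/-- `Dset` as a closed set. -/
def Dc (k : ℕ) (n : ℝ) : Closeds MMClass where
  carrier := Dset (1 / ((k : ℝ) + 3)) (1 / ((k : ℝ) + 3)) n
  isClosed' := isClosed_Dset (by
    have : (0 : ℝ) ≤ k := Nat.cast_nonneg k
    rw [div_lt_div_iff₀ (by positivity) (by norm_num)]
    linarith)

lemma rk_lt (k : ℕ) : 1 / ((k : ℝ) + 3) < 1 / 2 := by
  have : (0 : ℝ) ≤ k := Nat.cast_nonneg k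
  rw [div_lt_div_iff₀ (by positivity) (by norm_num)]
  linarith

/-- The closed set of the classes with an atom of full mass. -/
def A0 : Closeds MMClass where
  carrier := ⋂ k : ℕ, Dset (1 / ((k : ℝ) + 3)) 0 0
  isClosed' := isClosed_iInter (fun k => isClosed_Dset (rk_lt k))

lemma full_atom {X : MMSpace} (h : cls X ∈ (A0 : Set MMClass)) :
    ∃ a, X.mu.real {a} = 1 := by
  have h' : ∀ k : ℕ, PP (1 / ((k : ℝ) + 3)) 0 0 X := by
    intro k
    rw [← mem_Dset (rk_lt k)]
    exact mem_iInter.1 h k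
  choose a ha1 _ using h'
  have haa : ∀ n, a n = a 0 := by
    intro n
    obtain ⟨x, hx1, hx2⟩ : (({a n} : Set X.carrier) ∩ {a 0}).Nonempty := by
      apply inter_nonempty X.mu (measurableSet_singleton _)
      have := ha1 n
      have := ha1 0
      have := rk_lt n
      have := rk_lt 0
      linarith
    exact hx1.symm.trans hx2
  refine ⟨a 0, le_antisymm measureReal_le_one ?_⟩
  have h1 : Tendsto (fun k : ℕ => 1 - 1 / ((k : ℝ) + 3)) atTop (𝓝 (1 - 0)) := by
    have h1 : Tendsto (fun j : ℕ => ((j : ℝ) + 3)) atTop atTop :=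
      tendsto_atTop_add_const_right _ _ tendsto_natCast_atTop_atTop
    have h2 := h1.inv_tendsto_atTop
    refine (h2.congr (fun j => ?_)).const_sub 1
    rw [Pi.inv_apply, one_div]
  rw [sub_zero] at h1
  apply le_of_tendsto' h1
  intro k
  have := ha1 k
  rw [haa k] at this
  exact this

lemma A0_nonempty : (A0 : Set MMClass).Nonempty := by
  refine ⟨cls (twoPt 0 0), mem_iInter.2 (fun k => ?_)⟩
  rw [mem_Dset (rk_lt k)]
  obtain ⟨a, h1, h2⟩ := twoPt_PP (r := 0) (c := 0) le_rfl zero_le_one
  refine ⟨a, ?_, measureReal_nonneg⟩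
  have h3 : (0 : ℝ) ≤ 1 / ((k : ℝ) + 3) := by positivity
  refine le_trans ?_ h1
  linarith

/-- For each `k` the sets `Dc k n` converge to the empty set as `n → ∞`. -/
lemma conv_empty (k : ℕ) : KPConv (fun n : ℕ => Dc k n) (⊥ : Closeds MMClass) := by
  constructor
  · intro x hx
    exfalso
    obtain ⟨X, rfl⟩ := exists_cls x
    obtain ⟨N, hN⟩ := exists_not_PP (rk_lt k) (ρ := 1 / ((k : ℝ) + 3)) (by positivity) X
    rw [← mem_Dset (rk_lt k)] at hN
    have hU : (Dset (1 / ((k : ℝ) + 3)) (1 / ((k : ℝ) + 3)) N)ᶜ ∈ 𝓝 (cls X) :=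
      (isClosed_Dset (rk_lt k)).isOpen_compl.mem_nhds hN
    obtain ⟨n, hn, y, hy1, hy2⟩ := hx _ hU N
    apply hy2
    have : (N : ℝ) ≤ n := by exact_mod_cast hn
    exact Dset_anti this hy1
  · intro x hx
    exact absurd hx (by simp)

/-- For each choice of `n k` the sets `Dc k (n k)` converge to `A0` as `k → ∞`. -/
lemma conv_A0 (n : ℕ → ℕ) : KPConv (fun k : ℕ => Dc k (n k)) A0 := by
  constructor
  · intro x hx
    apply mem_iInter.2
    intro K
    by_contra hxK
    have hU : (Dset (1 / ((K : ℝ) + 3)) 0 0)ᶜ ∈ 𝓝 x :=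
      (isClosed_Dset (rk_lt K)).isOpen_compl.mem_nhds hxK
    obtain ⟨k, hk, y, hy1, hy2⟩ := hx _ hU K
    apply hy2
    have h1 : (K : ℝ) ≤ k := by exact_mod_cast hk
    have h2 : 1 / ((k : ℝ) + 3) ≤ 1 / ((K : ℝ) + 3) := by gcongr
    exact Dset_sub h2 hy1
  · intro x hx U hU
    obtain ⟨X, rfl⟩ := exists_cls x
    obtain ⟨a, ha⟩ := full_atom hx
    obtain ⟨V, hVU, hV, hxV⟩ := mem_nhds_iff.1 hU
    obtain ⟨ε, hε, hball⟩ := hV _ hxV
    obtain ⟨k₀, hk₀⟩ := exists_nat_one_div_lt hε
    refine ⟨k₀, fun k hk => ⟨cls (twoPt (1 / ((k : ℝ) + 3)) (n k)), ?_, ?_⟩⟩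
    · refine ⟨_, rfl, twoPt_PP (by positivity) ?_⟩
      linarith [rk_lt k]
    · apply hVU
      apply hball
      rw [boxDist_mk]
      have h1 : (k₀ : ℝ) ≤ k := by exact_mod_cast hk
      have h2 : 1 / ((k : ℝ) + 3) < 1 / ((k₀ : ℝ) + 1) := by
        apply one_div_lt_one_div_of_lt <;> [positivity; linarith]
      exact (box_twoPt ha (by positivity)).trans_lt (h2.trans hk₀)

/-- Sequences as nets in an arbitrary universe. -/
lemma KPCompat.seq.{v} {t : TopologicalSpace (Closeds MMClass)} (ht : KPCompat.{1, v} MMClass t)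
    {A : ℕ → Closeds MMClass} {B : Closeds MMClass} (h : KPConv A B) :
    Tendsto A atTop (@nhds _ t B) := by
  have h1 : KPConv (fun i : ULift.{v} ℕ => A i.down) B := by
    constructor
    · intro x hx
      apply h.1
      intro U hU i₀
      obtain ⟨i, hi, hi'⟩ := hx U hU ⟨i₀⟩
      exact ⟨i.down, hi, hi'⟩
    · intro x hx U hU
      obtain ⟨i₀, hi₀⟩ := h.2 hx U hU
      exact ⟨⟨i₀⟩, fun i hi => hi₀ i.down hi⟩
  have : IsDirectedOrder (ULift.{v} ℕ) :=
    ⟨fun a b => ⟨⟨max a.down b.down⟩, le_max_left a.down b.down, le_max_right a.down b.down⟩⟩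
  have h2 := ht (ULift.{v} ℕ) (fun i => A i.down) B h1
  have h3 : Tendsto (ULift.up : ℕ → ULift.{v} ℕ) atTop atTop := by
    rw [tendsto_atTop_atTop]
    exact fun b => ⟨b.down, fun a ha => ha⟩
  exact h2.comp h3

/-- **Answer to both questions (no)**: the topologization of Kuratowski–Painlevé convergence on the
closed subsets of the space of mm-spaces with the box distance is not Hausdorff, and therefore not
metrizable. (`v` is the universe of the index sets of the nets.) -/
theorem result.{v} :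
    ¬ @T2Space (Closeds MMClass) (tauK.{1, v} MMClass) ∧
      ¬ @MetrizableSpace (Closeds MMClass) (tauK.{1, v} MMClass) := by
  have main : ¬ @T2Space (Closeds MMClass) (tauK.{1, v} MMClass) := by
    intro hT
    have hc : KPCompat.{1, v} MMClass (tauK.{1, v} MMClass) := (tauK_isLeast.{1, v} MMClass).1
    have hne : A0 ≠ ⊥ := by
      intro h
      obtain ⟨x, hx⟩ := A0_nonempty
      rw [h] at hx
      exact absurd hx (by simp)
    obtain ⟨P, Q, hP, hQ, hAP, hBQ, hd⟩ := @T2Space.t2 _ (tauK.{1, v} MMClass) hT A0 ⊥ hne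
    have hPn : P ∈ @nhds _ (tauK.{1, v} MMClass) A0 :=
      @IsOpen.mem_nhds _ (tauK.{1, v} MMClass) _ _ hP hAP
    have hQn : Q ∈ @nhds _ (tauK.{1, v} MMClass) ⊥ :=
      @IsOpen.mem_nhds _ (tauK.{1, v} MMClass) _ _ hQ hBQ
    have h1 : ∀ k : ℕ, ∃ n : ℕ, Dc k n ∈ Q := by
      intro k
      have h2 := hc.seq (conv_empty k)
      exact (h2.eventually hQn).exists
    choose n hn using h1
    have h3 := hc.seq (conv_A0 n)
    obtain ⟨k, hk⟩ := (h3.eventually hPn).exists
    exact disjoint_left.1 hd hk (hn k)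
  refine ⟨main, fun hM => main ?_⟩
  let := tauK.{1, v} MMClass
  exact inferInstance

end Pool.Agent.Results.MP_3b4475_gt.NotHausdorff
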